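import Pool.Agent.H33.BDFP.Stmts

attribute [local instance] Pool.Agent.H33.BDFP.NV.instNACG Pool.Agent.H33.BDFP.NV.instModule
  Pool.Agent.H33.BDFP.NV.instNormedSpace Pool.Agent.H33.BDFP.NV.instFD
  Pool.Agent.H33.BDFP.NV.instComplete

/-! Module SCH of the project BDFP: Schur test, uniqueness, compactness. -/

open scoped ENNReal NNReal

noncomputable section

namespace Pool.Agent.H74.BDFP

open Pool.Agent.H33.BDFP

section

set_option linter.unusedSectionVars false

variable {p : ℝ≥0∞} [Fact (1 ≤ p)] {ι κ : Type} [DecidableEq ι] [DecidableEq κ]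
  {E : ι → Type} {F : κ → Type}
  [∀ i, NormedAddCommGroup (E i)] [∀ i, NormedSpace ℂ (E i)]
  [∀ i, NormedAddCommGroup (F i)] [∀ i, NormedSpace ℂ (F i)]

/-- weighted power inequality for one row -/
lemma row_ineq {P : ℝ} (hP : 1 ≤ P) {b a : ι → ℝ} (hb : ∀ j, 0 ≤ b j) (ha : ∀ j, 0 ≤ a j)
    {A : ℝ} (hA : ∀ j, a j ≤ A) (hs : Summable b) {C : ℝ} (hC : ∑' j, b j ≤ C) :
    (∑' j, b j * a j) ^ P ≤ C ^ (P - 1) * ∑' j, b j * a j ^ P := by
  have hP0 : 0 < P := by linarith
  have hC0 : 0 ≤ C := (tsum_nonneg hb).trans hC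
  have hs1 : Summable (fun j => b j * a j) := by
    refine Summable.of_nonneg_of_le (fun j => mul_nonneg (hb j) (ha j))
      (fun j => mul_le_mul_of_nonneg_left (hA j) (hb j)) (hs.mul_right A)
  have hs2 : Summable (fun j => b j * a j ^ P) := by
    refine Summable.of_nonneg_of_le (fun j => mul_nonneg (hb j) (Real.rpow_nonneg (ha j) _))
      (fun j => mul_le_mul_of_nonneg_left (Real.rpow_le_rpow (ha j) (hA j) hP0.le) (hb j))
      (hs.mul_right (A ^ P))
  have hG : 0 ≤ ∑' j, b j * a j ^ P :=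
    tsum_nonneg fun j => mul_nonneg (hb j) (Real.rpow_nonneg (ha j) _)
  have key : ∑' j, b j * a j ≤ C ^ (1 - P⁻¹) * (∑' j, b j * a j ^ P) ^ P⁻¹ := by
    refine hs1.tsum_le_of_sum_le fun S => ?_
    refine (Real.inner_le_weight_mul_Lp_of_nonneg S hP b a hb ha).trans ?_
    have hi : 0 ≤ 1 - P⁻¹ := by
      have : P⁻¹ ≤ 1 := inv_le_one_of_one_le₀ hP
      linarith
    refine mul_le_mul ?_ ?_ (Real.rpow_nonneg (Finset.sum_nonneg fun j _ =>
      mul_nonneg (hb j) (Real.rpow_nonneg (ha j) _)) _) (by positivity)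
    · exact Real.rpow_le_rpow (Finset.sum_nonneg fun j _ => hb j)
        ((hs.sum_le_tsum S fun j _ => hb j).trans hC) hi
    · exact Real.rpow_le_rpow
        (Finset.sum_nonneg fun j _ => mul_nonneg (hb j) (Real.rpow_nonneg (ha j) _))
        (hs2.sum_le_tsum S fun j _ => mul_nonneg (hb j) (Real.rpow_nonneg (ha j) _))
        (by positivity)
  have h0 : 0 ≤ ∑' j, b j * a j := tsum_nonneg fun j => mul_nonneg (hb j) (ha j)
  refine (Real.rpow_le_rpow h0 key hP0.le).trans (le_of_eq ?_)
  rw [Real.mul_rpow (by positivity) (by positivity), ← Real.rpow_mul hC0, ← Real.rpow_mul hG,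
    inv_mul_cancel₀ hP0.ne', Real.rpow_one]
  congr 2
  field_simp

lemma toReal_pos' (hp : p ≠ ∞) : 0 < p.toReal := ENNReal.toReal_pos
  (zero_lt_one.trans_le (Fact.out : (1 : ℝ≥0∞) ≤ p)).ne' hp

lemma one_le_toReal' (hp : p ≠ ∞) : 1 ≤ p.toReal := by
  have := ENNReal.toReal_mono hp (Fact.out : (1 : ℝ≥0∞) ≤ p)
  simpa using this

/-- the Schur estimate for finitely many rows -/
lemma schur_sum (hp : p ≠ ∞) {b : κ → ι → ℝ} {C : ℝ} (hC : 0 ≤ C) (hb : ∀ i j, 0 ≤ b i j)
    (hr : ∀ i, Summable (b i) ∧ ∑' j, b i j ≤ C)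
    (hc : ∀ j, Summable (fun i => b i j) ∧ ∑' i, b i j ≤ C) (x : lp E p) (s : Finset κ) :
    ∑ i ∈ s, (∑' j, b i j * ‖x j‖) ^ p.toReal ≤ (C * ‖x‖) ^ p.toReal := by
  have hP := one_le_toReal' hp
  have hP0 := toReal_pos' hp
  have hx0 : ∀ j, ‖x j‖ ≤ ‖x‖ := fun j =>
    lp.norm_apply_le_norm (zero_lt_one.trans_le (Fact.out : (1 : ℝ≥0∞) ≤ p)).ne' x j
  have hx := lp.hasSum_norm hP0 x
  have hsum : ∀ i, Summable (fun j => b i j * ‖x j‖ ^ p.toReal) := fun i =>
    Summable.of_nonneg_of_le (fun j => mul_nonneg (hb i j) (Real.rpow_nonneg (norm_nonneg _) _))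
      (fun j => mul_le_mul_of_nonneg_left
        (Real.rpow_le_rpow (norm_nonneg _) (hx0 j) hP0.le) (hb i j))
      ((hr i).1.mul_right (‖x‖ ^ p.toReal))
  calc ∑ i ∈ s, (∑' j, b i j * ‖x j‖) ^ p.toReal
      ≤ ∑ i ∈ s, C ^ (p.toReal - 1) * ∑' j, b i j * ‖x j‖ ^ p.toReal :=
        Finset.sum_le_sum fun i _ => row_ineq hP (hb i) (fun j => norm_nonneg _) hx0
          (hr i).1 (hr i).2
    _ = C ^ (p.toReal - 1) * ∑' j, ∑ i ∈ s, b i j * ‖x j‖ ^ p.toReal := by
        rw [← Finset.mul_sum, Summable.tsum_finsetSum fun i _ => hsum i]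
    _ ≤ C ^ (p.toReal - 1) * ∑' j, C * ‖x j‖ ^ p.toReal := by
        refine mul_le_mul_of_nonneg_left ?_ (Real.rpow_nonneg hC _)
        refine Summable.tsum_le_tsum (fun j => ?_) (summable_sum fun i _ => hsum i)
          (hx.summable.mul_left C)
        rw [← Finset.sum_mul]
        refine mul_le_mul_of_nonneg_right ?_ (Real.rpow_nonneg (norm_nonneg _) _)
        exact ((hc j).1.sum_le_tsum s fun i _ => hb i j).trans (hc j).2
    _ = (C * ‖x‖) ^ p.toReal := by
        rw [tsum_mul_left, hx.tsum_eq, Real.mul_rpow hC (norm_nonneg _), ← mul_assoc]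
        congr 1
        rcases hC.eq_or_lt with h | h
        · rw [← h, mul_zero, Real.zero_rpow hP0.ne']
        · rw [Real.rpow_sub_one h.ne']
          field_simp

/-- existence part of the Schur test -/
lemma schur_exists (hp : p ≠ ∞) [∀ i, FiniteDimensional ℂ (F i)]
    (t : ∀ (i : κ) (j : ι), E j →ₗ[ℂ] F i) (b : κ → ι → ℝ) (C : ℝ) (hC : 0 ≤ C)
    (hb : ∀ i j, 0 ≤ b i j) (ht : ∀ i j x, ‖t i j x‖ ≤ b i j * ‖x‖)
    (hr : ∀ i, Summable (b i) ∧ ∑' j, b i j ≤ C)
    (hc : ∀ j, Summable (fun i => b i j) ∧ ∑' i, b i j ≤ C) :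
    ∃ T : lp E p →L[ℂ] lp F p, IsMat T t ∧ ‖T‖ ≤ C := by
  have hP0 := toReal_pos' hp
  have hcomp : ∀ i, CompleteSpace (F i) := fun i => FiniteDimensional.complete ℂ (F i)
  have hx0 : ∀ (x : lp E p) j, ‖x j‖ ≤ ‖x‖ := fun x j =>
    lp.norm_apply_le_norm (zero_lt_one.trans_le (Fact.out : (1 : ℝ≥0∞) ≤ p)).ne' x j
  have hs1 : ∀ (x : lp E p) i, Summable (fun j => b i j * ‖x j‖) := fun x i =>
    Summable.of_nonneg_of_le (fun j => mul_nonneg (hb i j) (norm_nonneg _))
      (fun j => mul_le_mul_of_nonneg_left (hx0 x j) (hb i j)) ((hr i).1.mul_right ‖x‖)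
  have hs2 : ∀ (x : lp E p) i, Summable (fun j => t i j (x j)) := fun x i =>
    Summable.of_norm_bounded (hs1 x i) (fun j => ht i j (x j))
  have hn : ∀ (x : lp E p) i, ‖∑' j, t i j (x j)‖ ≤ ∑' j, b i j * ‖x j‖ := fun x i =>
    tsum_of_norm_bounded (hs1 x i).hasSum (fun j => ht i j (x j))
  have hsum : ∀ (x : lp E p) (s : Finset κ),
      ∑ i ∈ s, ‖∑' j, t i j (x j)‖ ^ p.toReal ≤ (C * ‖x‖) ^ p.toReal := fun x s =>
    (Finset.sum_le_sum fun i _ => Real.rpow_le_rpow (norm_nonneg _) (hn x i) hP0.le).trans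
      (schur_sum hp hC hb hr hc x s)
  let T0 : lp E p →ₗ[ℂ] lp F p :=
    { toFun := fun x => ⟨fun i => ∑' j, t i j (x j), memℓp_gen' (hsum x)⟩
      map_add' := fun x y => by
        refine lp.ext (funext fun i => ?_)
        change ∑' j, t i j ((x + y : lp E p) j) = ∑' j, t i j (x j) + ∑' j, t i j (y j)
        rw [← (hs2 x i).tsum_add (hs2 y i)]
        refine tsum_congr fun j => ?_
        rw [lp.coeFn_add, Pi.add_apply, map_add]
      map_smul' := fun c x => by
        refine lp.ext (funext fun i => ?_)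
        change ∑' j, t i j ((c • x : lp E p) j) = c • ∑' j, t i j (x j)
        rw [← (hs2 x i).tsum_const_smul c]
        refine tsum_congr fun j => ?_
        rw [lp.coeFn_smul, Pi.smul_apply, map_smul] }
  have hb0 : ∀ x, ‖T0 x‖ ≤ C * ‖x‖ := fun x =>
    lp.norm_le_of_forall_sum_le hP0 (mul_nonneg hC (norm_nonneg _)) (hsum x)
  refine ⟨T0.mkContinuous C hb0, ?_, T0.mkContinuous_norm_le hC hb0⟩
  intro j x i
  change ∑' j', t i j' (lp.single p j x j') = t i j x
  rw [tsum_eq_single j]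
  · rw [lp.single_apply_self]
  · intro j' hj'
    rw [lp.single_apply_ne p j x hj', map_zero]

/-- an operator is determined by its matrix -/
lemma mat_unique (hp : p ≠ ∞) (t : ∀ (i : κ) (j : ι), E j →ₗ[ℂ] F i)
    (T T' : lp E p →L[ℂ] lp F p) (h : IsMat T t) (h' : IsMat T' t) : T = T' := by
  refine ContinuousLinearMap.ext fun x => ?_
  have h1 := (lp.hasSum_single hp x).map T T.continuous
  have h2 := (lp.hasSum_single hp x).map T' T'.continuous
  refine h1.unique ?_
  convert! h2 using 1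
  funext j
  refine lp.ext (funext fun i => ?_)
  exact (h j (x j) i).trans (h' j (x j) i).symm

open Classical in
lemma trunc_apply (S : Set ι) (x : lp E p) (i : ι) :
    trunc p S x i = if i ∈ S then x i else 0 := by
  change (if i ∈ S then ContinuousLinearMap.id ℂ (E i) else 0) (x i) = _
  split_ifs <;> rfl

lemma trunc_of_mem {S : Set ι} (x : lp E p) {i : ι} (h : i ∈ S) : trunc p S x i = x i := by
  rw [trunc_apply, if_pos h]

lemma trunc_of_notMem {S : Set ι} (x : lp E p) {i : ι} (h : i ∉ S) : trunc p S x i = 0 := by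
  rw [trunc_apply, if_neg h]

lemma trunc_single_mem {S : Set ι} {j : ι} (h : j ∈ S) (x : E j) :
    trunc p S (lp.single p j x) = lp.single p j x := by
  refine lp.ext (funext fun i => ?_)
  by_cases hi : i = j
  · subst hi
    rw [trunc_of_mem _ h]
  · rw [trunc_apply, lp.single_apply_ne p j x hi]
    split_ifs <;> rfl

lemma trunc_single_notMem {S : Set ι} {j : ι} (h : j ∉ S) (x : E j) :
    trunc p S (lp.single p j x) = 0 := by
  refine lp.ext (funext fun i => ?_)
  by_cases hi : i = j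
  · subst hi
    rw [trunc_of_notMem _ h]
    rfl
  · rw [trunc_apply, lp.single_apply_ne p j x hi]
    split_ifs <;> rfl

/-- truncation to a finite set as a finite sum -/
lemma trunc_finset (S : Finset ι) (x : lp E p) :
    trunc p (S : Set ι) x = ∑ j ∈ S, lp.single p j (x j) := by
  refine lp.ext (funext fun i => ?_)
  rw [lp.coeFn_sum, Finset.sum_apply]
  by_cases hi : i ∈ S
  · rw [trunc_of_mem _ (Finset.mem_coe.2 hi), Finset.sum_eq_single i]
    · rw [lp.single_apply_self]
    · intro j _ hj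
      exact lp.single_apply_ne p j _ (Ne.symm hj)
    · intro h
      exact absurd hi h
  · rw [trunc_of_notMem _ (fun h => hi (Finset.mem_coe.1 h)), Finset.sum_eq_zero]
    intro j hj
    exact lp.single_apply_ne p j _ (fun h => hi (h ▸ hj))

/-- an operator composed with the truncation to a finite set is compact -/
lemma compact_trunc [∀ i, FiniteDimensional ℂ (E i)] {G : Type} [NormedAddCommGroup G]
    [NormedSpace ℂ G] (T : lp E p →L[ℂ] G) (S : Finset ι) :
    IsCompactOperator (⇑(T ∘L trunc p (S : Set ι))) := by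
  have h1 : ∀ j, IsCompactOperator
      (⇑((T ∘L lp.singleContinuousLinearMap ℂ E p j) ∘L lp.evalCLM ℂ E p j)) := fun j => by
    have hpr : ProperSpace (E j) := FiniteDimensional.proper ℂ (E j)
    exact (isCompactOperator_of_locallyCompactSpace_rng
      (T ∘L lp.singleContinuousLinearMap ℂ E p j)).comp_clm (lp.evalCLM ℂ E p j)
  have h2 : T ∘L trunc p (S : Set ι) =
      ∑ j ∈ S, (T ∘L lp.singleContinuousLinearMap ℂ E p j) ∘L lp.evalCLM ℂ E p j := by
    refine ContinuousLinearMap.ext fun x => ?_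
    rw [sum_apply]
    change T (trunc p (S : Set ι) x) = _
    rw [trunc_finset, map_sum]
    rfl
  rw [h2]
  have h3 : ∀ S : Finset ι, (∑ j ∈ S, (T ∘L lp.singleContinuousLinearMap ℂ E p j) ∘L
      lp.evalCLM ℂ E p j) ∈ compactOperator (RingHom.id ℂ) (lp E p) G := fun S =>
    Submodule.sum_mem _ fun j _ => h1 j
  exact h3 S

end

/-- Module SCH. -/
theorem sch : SchStmt := by
  intro p _ hp ι κ _ _ E F _ _ _ _ _ _ t
  refine ⟨fun b C hC hb ht hr hc => schur_exists hp t b C hC hb ht hr hc,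
    fun T T' h h' => mat_unique hp t T T' h h', ?_⟩
  intro T hT happ
  have hcF : ∀ i, CompleteSpace (F i) := fun i => FiniteDimensional.complete ℂ (F i)
  have key : ∀ n : ℕ, ∃ S : Finset ι,
      ‖T - T ∘L trunc p (S : Set ι)‖ ≤ 1 / ((n : ℝ) + 1) := by
    intro n
    obtain ⟨S, b, hb, ht, hr, hc⟩ := happ (1 / ((n : ℝ) + 1)) (by positivity)
    refine ⟨S, ?_⟩
    obtain ⟨T', hT', hn⟩ := schur_exists (p := p) (E := E) (F := F) hp
      (fun i j => if j ∈ S then 0 else t i j) (fun i j => if j ∈ S then 0 else b i j)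
      (1 / ((n : ℝ) + 1)) (by positivity) (fun i j => by
        split_ifs
        · exact le_rfl
        · exact hb i j) (fun i j x => by
        split_ifs with h
        · simp
        · exact ht i j h x) (fun i => by
        have hs : Summable (fun j => if j ∈ S then 0 else b i j) :=
          Summable.of_nonneg_of_le (fun j => by split_ifs; exacts [le_rfl, hb i j])
            (fun j => by split_ifs; exacts [hb i j, le_rfl]) (hr i).1
        refine ⟨hs, (hs.tsum_le_tsum (fun j => ?_) (hr i).1).trans (hr i).2⟩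
        split_ifs
        exacts [hb i j, le_rfl]) (fun j => by
        have hs : Summable (fun i => if j ∈ S then 0 else b i j) :=
          Summable.of_nonneg_of_le (fun i => by split_ifs; exacts [le_rfl, hb i j])
            (fun i => by split_ifs; exacts [hb i j, le_rfl]) (hc j).1
        refine ⟨hs, (hs.tsum_le_tsum (fun i => ?_) (hc j).1).trans (hc j).2⟩
        split_ifs
        exacts [hb i j, le_rfl])
    have hm : IsMat (T - T ∘L trunc p (S : Set ι)) (fun i j => if j ∈ S then 0 else t i j) := by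
      intro j x i
      change (T (lp.single p j x) - T (trunc p (S : Set ι) (lp.single p j x)) : lp F p) i = _
      by_cases h : j ∈ S
      · rw [trunc_single_mem (Finset.mem_coe.2 h), sub_self]
        simp [h]
      · rw [trunc_single_notMem (fun h' => h (Finset.mem_coe.1 h')), map_zero, sub_zero,
          hT j x i]
        simp [h]
    rw [mat_unique hp _ _ _ hm hT']
    exact hn
  choose S hS using key
  have htend : Filter.Tendsto (fun n => T ∘L trunc p (S n : Set ι)) Filter.atTop (nhds T) := by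
    rw [tendsto_iff_norm_sub_tendsto_zero]
    refine squeeze_zero (fun n => norm_nonneg _) (fun n => ?_)
      (tendsto_one_div_add_atTop_nhds_zero_nat (𝕜 := ℝ))
    rw [← norm_neg, neg_sub]
    exact hS n
  exact isCompactOperator_of_tendsto htend (Filter.Eventually.of_forall fun n =>
    compact_trunc T (S n))

end Pool.Agent.H74.BDFP
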