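import Pool.Agent.H74.BDFP.SCH

attribute [local instance] Pool.Agent.H33.BDFP.NV.instNACG Pool.Agent.H33.BDFP.NV.instModule
  Pool.Agent.H33.BDFP.NV.instNormedSpace Pool.Agent.H33.BDFP.NV.instFD
  Pool.Agent.H33.BDFP.NV.instComplete

/-! Module CUT of the project BDFP: truncations of bounded and compact operators. -/

open scoped ENNReal NNReal

noncomputable section

namespace Pool.Agent.H74.BDFP

open Pool.Agent.H33.BDFP Filter

/-- Module CUT, part 2. -/
theorem cutSeq : CutSeqStmt := by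
  intro I _ f g hf hg
  obtain ⟨enc, henc⟩ := exists_injective_nat I
  have step : ∀ j n : ℕ, ∃ n' : ℕ, n < n' ∧ ∀ m : I, enc m ≤ j →
      f m n n' ≤ (1 / 4 : ℝ) ^ j ∧ g m n' ≤ (1 / 4 : ℝ) ^ j := by
    intro j n
    have hfin : {m : I | enc m ≤ j}.Finite :=
      Set.Finite.of_injOn (t := Set.Iic j) (fun m hm => hm) henc.injOn (Set.finite_Iic j)
    have h0 : (0 : ℝ) < (1 / 4 : ℝ) ^ j := by positivity
    have h1 : ∀ m ∈ {m : I | enc m ≤ j}, ∀ᶠ n' in atTop,
        f m n n' ≤ (1 / 4 : ℝ) ^ j ∧ g m n' ≤ (1 / 4 : ℝ) ^ j := fun m _ =>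
      ((hf m n).eventually (ge_mem_nhds h0)).and ((hg m).eventually (ge_mem_nhds h0))
    have h2 := (eventually_all_finite hfin).2 h1
    obtain ⟨n', h3, h4⟩ := (h2.and (eventually_gt_atTop n)).exists
    exact ⟨n', h4, fun m hm => h3 m hm⟩
  choose st hst using step
  let N : ℕ → ℕ := fun k => Nat.rec 0 (fun j n => st j n) k
  have hN : ∀ j, N (j + 1) = st j (N j) := fun j => rfl
  refine ⟨N, strictMono_nat_of_lt_succ fun j => ?_, rfl, fun m => ⟨enc m, fun j hj => ?_⟩⟩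
  · rw [hN]
    exact (hst j (N j)).1
  · rw [hN]
    exact (hst j (N j)).2 m hj

section

set_option linter.unusedSectionVars false

variable {p : ℝ≥0∞} [Fact (1 ≤ p)] {E : ℕ → Type}
  [∀ i, NormedAddCommGroup (E i)] [∀ i, NormedSpace ℂ (E i)]

lemma trunc_trunc {ι : Type} {E : ι → Type} [∀ i, NormedAddCommGroup (E i)]
    [∀ i, NormedSpace ℂ (E i)] [DecidableEq ι] (S S' : Set ι) (x : lp E p) :
    trunc p S (trunc p S' x) = trunc p (S ∩ S') x := by
  classical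
  refine lp.ext (funext fun i => ?_)
  rw [trunc_apply, trunc_apply, trunc_apply]
  by_cases h : i ∈ S <;> by_cases h' : i ∈ S' <;> simp [h, h']

lemma norm_trunc_le {ι : Type} {E : ι → Type} [∀ i, NormedAddCommGroup (E i)]
    [∀ i, NormedSpace ℂ (E i)] (S : Set ι) : ‖(trunc p S : lp E p →L[ℂ] lp E p)‖ ≤ 1 :=
  lp.norm_mapCLM_le p _ zero_le_one _

lemma norm_trunc_apply_le {ι : Type} {E : ι → Type} [∀ i, NormedAddCommGroup (E i)]
    [∀ i, NormedSpace ℂ (E i)] (S : Set ι) (x : lp E p) : ‖trunc p S x‖ ≤ ‖x‖ := by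
  have := (trunc p S : lp E p →L[ℂ] lp E p).le_of_opNorm_le (norm_trunc_le S) x
  rwa [one_mul] at this

lemma trunc_range (N : ℕ) (x : lp E p) :
    trunc p {i | i < N} x = ∑ j ∈ Finset.range N, lp.single p j (x j) := by
  rw [← trunc_finset]
  congr 2
  ext i
  simp

lemma trunc_add_compl (N : ℕ) (x : lp E p) :
    trunc p {i | i < N} x + trunc p {i | N ≤ i} x = x := by
  refine lp.ext (funext fun i => ?_)
  rw [lp.coeFn_add, Pi.add_apply]
  by_cases h : i < N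
  · rw [trunc_of_mem _ (show i ∈ {i | i < N} from h),
      trunc_of_notMem _ (show i ∉ {i | N ≤ i} from fun h' => absurd h (not_lt.2 h')), add_zero]
  · rw [trunc_of_notMem _ (show i ∉ {i | i < N} from h),
      trunc_of_mem _ (show i ∈ {i | N ≤ i} from not_lt.1 h), zero_add]

lemma tendsto_trunc_lt (hp : p ≠ ∞) (x : lp E p) :
    Tendsto (fun N : ℕ => trunc p {i | i < N} x) atTop (nhds x) := by
  have h := (lp.hasSum_single hp x).tendsto_sum_nat
  exact h.congr fun N => (trunc_range N x).symm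

lemma tendsto_trunc_ge (hp : p ≠ ∞) (x : lp E p) :
    Tendsto (fun N : ℕ => trunc p {i | N ≤ i} x) atTop (nhds 0) := by
  have h := (tendsto_const_nhds (x := x)).sub (tendsto_trunc_lt hp x)
  rw [sub_self] at h
  exact h.congr fun N => by
    rw [sub_eq_iff_eq_add']
    exact (trunc_add_compl N x).symm

/-- compact operators: the tails in the range -/
lemma tail_left (hp : p ≠ ∞) {G : Type} [NormedAddCommGroup G] [NormedSpace ℂ G]
    (T : G →L[ℂ] lp E p) (hT : IsCompactOperator (⇑T)) :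
    Tendsto (fun N : ℕ => ‖trunc p {i | N ≤ i} ∘L T‖) atTop (nhds 0) := by
  rw [Metric.tendsto_atTop]
  intro ε hε
  have hK : IsCompact (closure (T '' Metric.closedBall 0 1)) :=
    hT.isCompact_closure_image_closedBall 1
  obtain ⟨t, _, htf, ht⟩ := hK.finite_cover_balls (e := ε / 4) (by positivity)
  have h1 : ∀ᶠ N : ℕ in atTop, ∀ y ∈ t, ‖trunc p {i | N ≤ i} y‖ < ε / 4 := by
    refine (eventually_all_finite htf).2 fun y _ => ?_
    have h := (tendsto_trunc_ge hp y).norm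
    rw [norm_zero] at h
    exact h.eventually (gt_mem_nhds (by positivity))
  obtain ⟨N₀, hN₀⟩ := eventually_atTop.1 h1
  refine ⟨N₀, fun N hN => ?_⟩
  rw [dist_zero_right, norm_norm]
  refine lt_of_le_of_lt (b := ε / 2) ?_ (by linarith)
  refine ContinuousLinearMap.opNorm_le_of_unit_norm (by positivity) fun x hx => ?_
  have hmem : T x ∈ closure (T '' Metric.closedBall 0 1) :=
    subset_closure ⟨x, by rw [mem_closedBall_zero_iff, hx], rfl⟩
  obtain ⟨y, hy⟩ := Set.mem_iUnion.1 (ht hmem)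
  obtain ⟨hyt, hy⟩ := Set.mem_iUnion.1 hy
  rw [mem_ball_iff_norm] at hy
  have h2 := hN₀ N hN y hyt
  have h3 : ‖trunc p {i | N ≤ i} (T x - y)‖ ≤ ‖T x - y‖ := norm_trunc_apply_le _ _
  change ‖trunc p {i | N ≤ i} (T x)‖ ≤ ε / 2
  calc ‖trunc p {i | N ≤ i} (T x)‖
      = ‖trunc p {i | N ≤ i} (T x - y) + trunc p {i | N ≤ i} y‖ := by
        rw [← map_add, sub_add_cancel]
    _ ≤ ‖trunc p {i | N ≤ i} (T x - y)‖ + ‖trunc p {i | N ≤ i} y‖ := norm_add_le _ _
    _ ≤ ε / 2 := by linarith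

/-- monotonicity of the tails in the domain -/
lemma tail_antitone {G : Type} [NormedAddCommGroup G] [NormedSpace ℂ G]
    (T : lp E p →L[ℂ] G) {N M : ℕ} (h : N ≤ M) :
    ‖T ∘L trunc p {i | M ≤ i}‖ ≤ ‖T ∘L trunc p {i | N ≤ i}‖ := by
  have h1 : T ∘L trunc p {i | M ≤ i} = (T ∘L trunc p {i | N ≤ i}) ∘L trunc p {i | M ≤ i} := by
    refine ContinuousLinearMap.ext fun x => ?_
    change T (trunc p {i | M ≤ i} x) = T (trunc p {i | N ≤ i} (trunc p {i | M ≤ i} x))
    rw [trunc_trunc]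
    congr 3
    ext i
    constructor
    · intro hi
      exact ⟨h.trans hi, hi⟩
    · intro hi
      exact hi.2
  rw [h1]
  refine (ContinuousLinearMap.opNorm_comp_le _ _).trans ?_
  calc ‖T ∘L trunc p {i | N ≤ i}‖ * ‖(trunc p {i | M ≤ i} : lp E p →L[ℂ] lp E p)‖
      ≤ ‖T ∘L trunc p {i | N ≤ i}‖ * 1 :=
        mul_le_mul_of_nonneg_left (norm_trunc_le _) (norm_nonneg _)
    _ = _ := mul_one _

/-- a non-null sequence of tails is bounded below -/
lemma tail_bound {G : Type} [NormedAddCommGroup G] [NormedSpace ℂ G]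
    (T : lp E p →L[ℂ] G)
    (h : ¬ Tendsto (fun N : ℕ => ‖T ∘L trunc p {i | N ≤ i}‖) atTop (nhds 0)) :
    ∃ d : ℝ, 0 < d ∧ ∀ N : ℕ, d ≤ ‖T ∘L trunc p {i | N ≤ i}‖ := by
  by_contra hcon
  push Not at hcon
  apply h
  rw [Metric.tendsto_atTop]
  intro ε hε
  obtain ⟨N, hN⟩ := hcon ε hε
  refine ⟨N, fun M hM => ?_⟩
  rw [dist_zero_right, norm_norm]
  exact (tail_antitone T hM).trans_lt hN

/-- one block for a functional -/
lemma block (hp : p ≠ ∞) (φ : lp E p →L[ℂ] ℂ) {d : ℝ} (hd : 0 < d)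
    (h : ∀ N : ℕ, d ≤ ‖φ ∘L trunc p {i | N ≤ i}‖) (N : ℕ) :
    ∃ (M : ℕ) (x : lp E p), N ≤ M ∧ (∀ i, i < N → x i = 0) ∧ (∀ i, M ≤ i → x i = 0) ∧
      ‖x‖ ≤ 1 ∧ d / 2 ≤ (φ x).re := by
  obtain ⟨x₀, hx₀, hφ⟩ := ContinuousLinearMap.exists_lt_apply_of_lt_opNorm
    (φ ∘L trunc p {i | N ≤ i}) (r := d / 2) (lt_of_lt_of_le (by linarith) (h N))
  set w := trunc p {i | N ≤ i} x₀ with hw
  have hφ' : d / 2 < ‖φ w‖ := hφ
  have h1 : Tendsto (fun M : ℕ => ‖φ (trunc p {i | i < M} w)‖) atTop (nhds ‖φ w‖) :=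
    ((φ.continuous.tendsto w).comp (tendsto_trunc_lt hp w)).norm
  obtain ⟨M, hM, hMN⟩ := ((h1.eventually (lt_mem_nhds hφ')).and
    (eventually_ge_atTop N)).exists
  set z := trunc p {i | i < M} w with hz
  have hz1 : ‖z‖ ≤ 1 :=
    (norm_trunc_apply_le _ _).trans ((norm_trunc_apply_le _ _).trans hx₀.le)
  have hne : (‖φ z‖ : ℂ) ≠ 0 := by
    have : (0 : ℝ) < ‖φ z‖ := lt_trans (by linarith) hM
    exact_mod_cast this.ne'
  set c : ℂ := (starRingEnd ℂ) (φ z) / (‖φ z‖ : ℂ) with hc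
  have hcn : ‖c‖ = 1 := by
    rw [hc, norm_div, RCLike.norm_conj, Complex.norm_real, norm_norm, div_self]
    exact_mod_cast hne
  refine ⟨M, c • z, hMN, fun i hi => ?_, fun i hi => ?_, ?_, ?_⟩
  · rw [lp.coeFn_smul, Pi.smul_apply, hz, trunc_apply]
    rw [hw, trunc_of_notMem _ (show i ∉ {i | N ≤ i} from fun h' => absurd hi (not_lt.2 h'))]
    simp
  · rw [lp.coeFn_smul, Pi.smul_apply, hz,
      trunc_of_notMem _ (show i ∉ {i | i < M} from not_lt.2 hi), smul_zero]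
  · rw [norm_smul, hcn, one_mul]
    exact hz1
  · rw [map_smul, smul_eq_mul, hc, div_mul_eq_mul_div, mul_comm, Complex.mul_conj,
      Complex.normSq_eq_norm_sq]
    push_cast
    rw [pow_two, mul_div_assoc, div_self hne, mul_one, Complex.ofReal_re]
    exact hM.le

lemma norm_add_disj (hp : p ≠ ∞) (x y : lp E p) (h : ∀ i, x i = 0 ∨ y i = 0) :
    ‖x + y‖ ^ p.toReal = ‖x‖ ^ p.toReal + ‖y‖ ^ p.toReal := by
  have hp0 := toReal_pos' hp
  have h1 := lp.hasSum_norm hp0 x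
  have h2 := lp.hasSum_norm hp0 y
  refine (lp.hasSum_norm hp0 (x + y)).unique ?_
  convert! h1.add h2 using 1
  funext i
  rw [lp.coeFn_add, Pi.add_apply]
  rcases h i with h | h
  · rw [h, zero_add, norm_zero, Real.zero_rpow hp0.ne', zero_add]
  · rw [h, add_zero, norm_zero, Real.zero_rpow hp0.ne', add_zero]

/-- many blocks for a functional -/
lemma blocks (hp : p ≠ ∞) (φ : lp E p →L[ℂ] ℂ) {d : ℝ} (hd : 0 < d)
    (h : ∀ N : ℕ, d ≤ ‖φ ∘L trunc p {i | N ≤ i}‖) (K : ℕ) :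
    ∀ N : ℕ, ∃ x : lp E p, (∀ i, i < N → x i = 0) ∧ ‖x‖ ^ p.toReal ≤ K ∧
      K * (d / 2) ≤ (φ x).re := by
  have hp0 := toReal_pos' hp
  induction K with
  | zero =>
    intro N
    refine ⟨0, fun i _ => rfl, ?_, ?_⟩
    · rw [norm_zero, Real.zero_rpow hp0.ne']
      simp
    · simp
  | succ K ih =>
    intro N
    obtain ⟨M, x, hNM, hx1, hx2, hx3, hx4⟩ := block hp φ hd h N
    obtain ⟨y, hy1, hy2, hy3⟩ := ih M
    refine ⟨x + y, fun i hi => ?_, ?_, ?_⟩
    · rw [lp.coeFn_add, Pi.add_apply, hx1 i hi, hy1 i (hi.trans_le hNM), add_zero]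
    · rw [norm_add_disj hp x y (fun i => ?_)]
      · have : ‖x‖ ^ p.toReal ≤ 1 := Real.rpow_le_one (norm_nonneg _) hx3 hp0.le
        push_cast
        linarith
      · rcases lt_or_ge i M with hi | hi
        · exact Or.inr (hy1 i hi)
        · exact Or.inl (hx2 i hi)
    · rw [map_add, Complex.add_re]
      push_cast
      linarith

/-- functionals: the tails tend to zero -/
lemma tail_functional (hp1 : 1 < p) (hp : p ≠ ∞) (φ : lp E p →L[ℂ] ℂ) :
    Tendsto (fun N : ℕ => ‖φ ∘L trunc p {i | N ≤ i}‖) atTop (nhds 0) := by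
  by_contra hcon
  obtain ⟨d, hd, h⟩ := tail_bound φ hcon
  have hp0 := toReal_pos' hp
  have hP : 1 < p.toReal := by
    have := (ENNReal.toReal_lt_toReal ENNReal.one_ne_top hp).2 hp1
    simpa using this
  have h1 : ∀ K : ℕ, (K : ℝ) * (d / 2) ≤ ‖φ‖ * (K : ℝ) ^ (p.toReal)⁻¹ := by
    intro K
    obtain ⟨x, _, hx2, hx3⟩ := blocks hp φ hd h K 0
    have h2 : ‖x‖ ≤ (K : ℝ) ^ (p.toReal)⁻¹ := by
      have := Real.rpow_le_rpow (Real.rpow_nonneg (norm_nonneg x) _) hx2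
        (inv_nonneg.2 hp0.le)
      rwa [← Real.rpow_mul (norm_nonneg _), mul_inv_cancel₀ hp0.ne', Real.rpow_one] at this
    calc (K : ℝ) * (d / 2) ≤ (φ x).re := hx3
      _ ≤ ‖φ x‖ := Complex.re_le_norm _
      _ ≤ ‖φ‖ * ‖x‖ := φ.le_opNorm x
      _ ≤ _ := mul_le_mul_of_nonneg_left h2 (norm_nonneg _)
  have hexp : 0 < 1 - (p.toReal)⁻¹ := by
    have : (p.toReal)⁻¹ < 1 := inv_lt_one_of_one_lt₀ hP
    linarith
  have h2 : Tendsto (fun K : ℕ => (K : ℝ) ^ (1 - (p.toReal)⁻¹)) atTop atTop :=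
    (tendsto_rpow_atTop hexp).comp tendsto_natCast_atTop_atTop
  obtain ⟨K, hK, hK1⟩ := ((h2.eventually_gt_atTop (‖φ‖ / (d / 2))).and
    (eventually_ge_atTop 1)).exists
  have hK0 : (0 : ℝ) < K := by exact_mod_cast hK1
  rw [Real.rpow_sub hK0, Real.rpow_one, div_lt_div_iff₀ (by positivity) (by positivity)] at hK
  exact absurd (h1 K) (not_le.2 hK)

/-- compact operators: the tails in the domain -/
lemma tail_right (hp1 : 1 < p) (hp : p ≠ ∞) {G : Type} [NormedAddCommGroup G]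
    [NormedSpace ℂ G] (T : lp E p →L[ℂ] G) (hT : IsCompactOperator (⇑T)) :
    Tendsto (fun N : ℕ => ‖T ∘L trunc p {i | N ≤ i}‖) atTop (nhds 0) := by
  by_contra hcon
  obtain ⟨d, hd, h⟩ := tail_bound T hcon
  have h1 : ∀ N : ℕ, ∃ x : lp E p, ‖x‖ < 1 ∧ d / 2 < ‖T (trunc p {i | N ≤ i} x)‖ := by
    intro N
    obtain ⟨x, hx, hx'⟩ := ContinuousLinearMap.exists_lt_apply_of_lt_opNorm
      (T ∘L trunc p {i | N ≤ i}) (r := d / 2) (lt_of_lt_of_le (by linarith) (h N))
    exact ⟨x, hx, hx'⟩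
  choose x hx1 hx2 using h1
  have hK : IsCompact (closure (T '' Metric.closedBall 0 1)) :=
    hT.isCompact_closure_image_closedBall 1
  obtain ⟨y, _, s, hs, hy⟩ := hK.tendsto_subseq
    (x := fun N => T (trunc p {i | N ≤ i} (x N))) (fun N => subset_closure
      ⟨_, by
        rw [mem_closedBall_zero_iff]
        exact (norm_trunc_apply_le _ _).trans (hx1 N).le, rfl⟩)
  have hyd : d / 2 ≤ ‖y‖ := ge_of_tendsto hy.norm (Eventually.of_forall fun k => (hx2 (s k)).le)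
  obtain ⟨f, hf1, hf2⟩ := exists_dual_vector'' ℂ y
  have h3 : Tendsto (fun k => f (T (trunc p {i | s k ≤ i} (x (s k))))) atTop (nhds (f y)) :=
    (f.continuous.tendsto y).comp hy
  have h4 : Tendsto (fun k => f (T (trunc p {i | s k ≤ i} (x (s k))))) atTop (nhds 0) := by
    refine squeeze_zero_norm (fun k => ?_)
      ((tail_functional hp1 hp (f ∘L T)).comp hs.tendsto_atTop)
    have := ((f ∘L T) ∘L trunc p {i | s k ≤ i}).le_opNorm (x (s k))
    refine le_trans this ?_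
    exact mul_le_of_le_one_right (norm_nonneg _) (hx1 (s k)).le
  have h5 := tendsto_nhds_unique h3 h4
  rw [hf2] at h5
  have h6 : ‖y‖ = 0 := by
    have h7 := congrArg (fun z : ℂ => ‖z‖) h5
    simpa using h7
  linarith

end

/-- Module CUT, part 1. -/
theorem cut : CutStmt := by
  intro p q _ _ hp1 hp hq E F _ _ _ _ _ _ T
  have hcoe : ∀ n : ℕ, ((Finset.range n : Finset ℕ) : Set ℕ) = {i | i < n} := fun n => by
    ext i
    simp
  refine ⟨fun n => ?_, fun n => ?_, fun hT => ⟨tail_left hq T hT, tail_right hp1 hp T hT⟩⟩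
  · refine tail_left hq (T ∘L trunc p {i | i < n}) ?_
    have h := compact_trunc T (Finset.range n)
    rwa [hcoe] at h
  · have h : IsCompactOperator (⇑(trunc q {i | i < n} ∘L T)) := by
      have h := compact_trunc (ContinuousLinearMap.id ℂ (lp F q)) (Finset.range n)
      rw [hcoe, ContinuousLinearMap.id_comp] at h
      have h' := IsCompactOperator.comp_clm h T
      exact h'
    have h' := tail_right hp1 hp (trunc q {i | i < n} ∘L T) h
    refine h'.congr fun N => ?_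
    rw [ContinuousLinearMap.comp_assoc]

end Pool.Agent.H74.BDFP
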